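import Mathlib

set_option autoImplicit false

open MeasureTheory ProbabilityTheory Filter
open scoped ENNReal Topology

namespace Pool.Agent.H3

variable {Ω : Type*} [MeasurableSpace Ω] {μ : Measure Ω}

/-- A second Borel-Cantelli lemma under pairwise nonpositive correlation. -/
theorem bc2_of_pairwise_le [IsProbabilityMeasure μ] {s : ℕ → Set Ω}
    (hs : ∀ n, MeasurableSet (s n))
    (hneg : ∀ n m, n < m → μ.real (s n ∩ s m) ≤ μ.real (s n) * μ.real (s m))
    (hdiv : ¬ Summable (fun n => μ.real (s n))) :
    ∀ᵐ ω ∂μ, {n | ω ∈ s n}.Infinite := by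
  classical
  set X : ℕ → Ω → ℝ := fun n => (s n).indicator (fun _ => (1 : ℝ)) with hX
  have hmem : ∀ n, MemLp (X n) 2 μ := fun n =>
    memLp_indicator_const 2 (hs n) (1 : ℝ) (Or.inr (measure_ne_top _ _))
  have hint : ∀ n, ∫ ω, X n ω ∂μ = μ.real (s n) := by
    intro n
    rw [hX]
    simp only
    rw [integral_indicator_const _ (hs n)]
    simp
  have hcov : ∀ n m, n ≠ m → cov[X n, X m; μ] ≤ 0 := by
    have key : ∀ n m, n < m → cov[X n, X m; μ] ≤ 0 := by
      intro n m hnm
      rw [covariance_eq_sub (hmem n) (hmem m)]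
      have h1 : (X n * X m) = (s n ∩ s m).indicator (fun _ => (1 : ℝ)) := by
        funext ω
        simp only [hX, Pi.mul_apply, Set.indicator_apply, Set.mem_inter_iff]
        by_cases h1 : ω ∈ s n <;> by_cases h2 : ω ∈ s m <;> simp [h1, h2]
      rw [h1, integral_indicator_const _ ((hs n).inter (hs m)), hint, hint]
      simp only [smul_eq_mul, mul_one]
      linarith [hneg n m hnm]
    intro n m hnm
    rcases lt_or_gt_of_ne hnm with h | h
    · exact key n m h
    · rw [covariance_comm]; exact key m n h
  have hvar : ∀ n, cov[X n, X n; μ] ≤ μ.real (s n) := by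
    intro n
    rw [covariance_eq_sub (hmem n) (hmem n)]
    have h1 : (X n * X n) = (s n).indicator (fun _ => (1 : ℝ)) := by
      funext ω
      simp only [hX, Pi.mul_apply, Set.indicator_apply]
      by_cases h1 : ω ∈ s n <;> simp [h1]
    have h2 : ∫ ω, X n ω ∂μ = μ.real (s n) := hint n
    rw [h1, h2]
    nlinarith [mul_self_nonneg (μ.real (s n))]
  set S : ℕ → Ω → ℝ := fun N ω => ∑ i ∈ Finset.range N, X i ω with hS
  set m : ℕ → ℝ := fun N => ∑ i ∈ Finset.range N, μ.real (s i) with hm
  have hmtop : Tendsto m atTop atTop := by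
    rw [hm]
    exact (not_summable_iff_tendsto_nat_atTop_of_nonneg (fun n => measureReal_nonneg)).1 hdiv
  have hSmem : ∀ N, MemLp (S N) 2 μ := by
    intro N
    have := memLp_finsetSum' (μ := μ) (p := 2) (Finset.range N) (fun i _ => hmem i)
    convert this using 1
    funext ω
    simp [hS]
  have hSint : ∀ N, ∫ ω, S N ω ∂μ = m N := by
    intro N
    rw [hS, hm]
    simp only
    rw [integral_finsetSum _ (fun i _ => (hmem i).integrable (by norm_num))]
    exact Finset.sum_congr rfl (fun i _ => hint i)
  have hSvar : ∀ N, variance (S N) μ ≤ m N := by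
    intro N
    have h1 : S N = fun ω => ∑ i ∈ Finset.range N, X i ω := rfl
    rw [h1, variance_fun_sum' (fun i _ => hmem i)]
    calc ∑ i ∈ Finset.range N, ∑ j ∈ Finset.range N, cov[X i, X j; μ]
        ≤ ∑ i ∈ Finset.range N, μ.real (s i) := by
          refine Finset.sum_le_sum fun i hi => ?_
          rw [← Finset.add_sum_erase _ _ hi]
          have h2 : ∑ j ∈ (Finset.range N).erase i, cov[X i, X j; μ] ≤ 0 :=
            Finset.sum_nonpos fun j hj => hcov i j (Finset.ne_of_mem_erase hj).symm
          linarith [hvar i]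
      _ = m N := rfl
  -- the event of at most `K` occurrences is null
  have hnull : ∀ K : ℕ, μ {ω | ∀ N, S N ω ≤ K} = 0 := by
    intro K
    have hb : ∀ᶠ N in atTop, μ {ω | ∀ N, S N ω ≤ K} ≤ ENNReal.ofReal (4 / m N) := by
      filter_upwards [hmtop.eventually_ge_atTop (2 * (K : ℝ) + 1)] with N hN
      have hmpos : 0 < m N := by
        have : (0 : ℝ) ≤ K := Nat.cast_nonneg K
        linarith
      have hsub : {ω | ∀ N, S N ω ≤ K} ⊆ {ω | m N / 2 ≤ |S N ω - μ[S N]|} := by
        intro ω hω
        simp only [Set.mem_ofPred_eq] at hω ⊢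
        rw [hSint N, abs_sub_comm]
        have := hω N
        refine le_trans ?_ (le_abs_self _)
        linarith
      refine (measure_mono hsub).trans ?_
      refine (meas_ge_le_variance_div_sq (hSmem N) (by positivity)).trans ?_
      apply ENNReal.ofReal_le_ofReal
      have hv := hSvar N
      rw [div_le_div_iff₀ (by positivity) hmpos]
      nlinarith [hv, hmpos]
    have hlim : Tendsto (fun N => ENNReal.ofReal (4 / m N)) atTop (𝓝 0) := by
      have h0 : Tendsto (fun N => 4 / m N) atTop (𝓝 0) := hmtop.const_div_atTop 4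
      have := (ENNReal.continuous_ofReal.tendsto 0).comp h0
      rw [ENNReal.ofReal_zero] at this
      exact this
    exact le_antisymm (ge_of_tendsto hlim hb) zero_le
  have hall : ∀ᵐ ω ∂μ, ∀ K : ℕ, ¬ ∀ N, S N ω ≤ K := by
    rw [ae_all_iff]
    intro K
    rw [ae_iff]
    simpa using hnull K
  filter_upwards [hall] with ω hω
  intro hfin
  apply hω hfin.toFinset.card
  intro N
  have h1 : S N ω = ((Finset.range N).filter (fun i => ω ∈ s i)).card := by
    simp only [hS, hX, Set.indicator_apply]
    rw [Finset.sum_ite]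
    simp
  rw [h1]
  norm_cast
  apply Finset.card_le_card
  intro i hi
  simp only [Finset.mem_filter] at hi
  simpa using hi.2

end Pool.Agent.H3
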