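import Pool.Agent.H17.PNT

set_option autoImplicit false

open Filter
open scoped Topology

namespace Pool.Agent.H3

/-- the `n`-th prime (`p 0 = 2`) as a real number -/
noncomputable abbrev pr (n : ℕ) : ℝ := (Nat.nth Nat.Prime n : ℝ)

lemma prime_nth (n : ℕ) : (Nat.nth Nat.Prime n).Prime :=
  Nat.nth_mem_of_infinite Nat.infinite_setOfPred_prime n

lemma two_le_pr (n : ℕ) : (2 : ℝ) ≤ pr n := by
  exact_mod_cast (prime_nth n).two_le

lemma pr_pos (n : ℕ) : (0 : ℝ) < pr n := by linarith [two_le_pr n]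

lemma log_pr_pos (n : ℕ) : 0 < Real.log (pr n) := Real.log_pos (by linarith [two_le_pr n])

lemma pr_lt_succ (n : ℕ) : pr n < pr (n + 1) := by
  have := (Nat.nth_strictMono Nat.infinite_setOfPred_prime) (Nat.lt_succ_self n)
  exact_mod_cast this

lemma primeCounting_nth (n : ℕ) : Nat.primeCounting (Nat.nth Nat.Prime n) = n + 1 := by
  rw [Nat.primeCounting, Nat.primeCounting', Nat.count_succ, Nat.count_nth_of_infinite Nat.infinite_setOfPred_prime]
  simp [prime_nth n]

lemma tendsto_pr : Tendsto pr atTop atTop := by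
  have h1 : Tendsto (fun n => Nat.nth Nat.Prime n) atTop atTop :=
    (Nat.nth_strictMono Nat.infinite_setOfPred_prime).tendsto_atTop
  exact tendsto_natCast_atTop_atTop.comp h1

/-- `n log p_n / p_n → 1`. -/
lemma tendsto_PNT : Tendsto (fun n : ℕ => ((n : ℝ) + 1) * Real.log (pr n) / pr n) atTop (𝓝 1) := by
  have := Pool.Agent.H17.pi_tendsto.comp tendsto_pr
  refine this.congr fun n => ?_
  simp only [Function.comp_apply, pr, Nat.floor_natCast, primeCounting_nth]
  push_cast
  ring

lemma tendsto_log_pr : Tendsto (fun n => Real.log (pr n)) atTop atTop :=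
  Real.tendsto_log_atTop.comp tendsto_pr

lemma pr_succ_le (n : ℕ) : pr (n + 1) ≤ 2 * pr n := by
  obtain ⟨q, hq, h1, h2⟩ := Nat.exists_prime_lt_and_le_two_mul (Nat.nth Nat.Prime n)
    (prime_nth n).ne_zero
  have : Nat.nth Nat.Prime (n + 1) ≤ q := by
    by_contra hlt
    push Not at hlt
    have h3 : Nat.count Nat.Prime q = n + 1 := by
      have a : Nat.count Nat.Prime q ≤ n + 1 := by
        rw [Nat.count_le_iff_le_nth Nat.infinite_setOfPred_prime]
        exact hlt.le
      have b : n + 1 ≤ Nat.count Nat.Prime q := by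
        have : Nat.count Nat.Prime (Nat.nth Nat.Prime n + 1) ≤ Nat.count Nat.Prime q :=
          Nat.count_monotone _ h1
        rw [Nat.count_succ, Nat.count_nth_of_infinite Nat.infinite_setOfPred_prime] at this
        simpa [prime_nth n] using this
      omega
    have h4 : Nat.nth Nat.Prime (Nat.count Nat.Prime q) = q := Nat.nth_count hq
    rw [h3] at h4
    omega
  have h5 : Nat.nth Nat.Prime (n + 1) ≤ 2 * Nat.nth Nat.Prime n := this.trans h2
  exact_mod_cast h5


lemma tendsto_log_ratio :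
    Tendsto (fun n => Real.log (pr (n + 1)) / Real.log (pr n)) atTop (𝓝 1) := by
  have h0 : Tendsto (fun n => 1 + Real.log 2 / Real.log (pr n)) atTop (𝓝 1) := by
    have := (tendsto_log_pr.const_div_atTop (Real.log 2)).const_add 1
    simpa using this
  refine tendsto_of_tendsto_of_tendsto_of_le_of_le tendsto_const_nhds h0 ?_ ?_
  · intro n
    simp only
    rw [le_div_iff₀ (log_pr_pos n), one_mul]
    exact Real.log_le_log (pr_pos n) (pr_lt_succ n).le
  · intro n
    simp only
    rw [div_le_iff₀ (log_pr_pos n), add_mul, one_mul, div_mul_cancel₀ _ (log_pr_pos n).ne']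
    calc Real.log (pr (n + 1)) ≤ Real.log (2 * pr n) :=
          Real.log_le_log (pr_pos _) (pr_succ_le n)
      _ = Real.log (pr n) + Real.log 2 := by
          rw [Real.log_mul (by norm_num) (pr_pos n).ne']; ring

lemma tendsto_ratio : Tendsto (fun n => pr (n + 1) / pr n) atTop (𝓝 1) := by
  have h1 := tendsto_PNT
  have h2 := tendsto_PNT.comp (tendsto_add_atTop_nat 1)
  have h3 : Tendsto (fun n : ℕ => (((n : ℝ) + 1) + 1) / ((n : ℝ) + 1)) atTop (𝓝 1) := by
    have : Tendsto (fun n : ℕ => 1 + 1 / ((n : ℝ) + 1)) atTop (𝓝 (1 + 0)) :=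
      tendsto_one_div_add_atTop_nhds_zero_nat.const_add 1
    rw [add_zero] at this
    refine this.congr fun n => ?_
    have : (n : ℝ) + 1 ≠ 0 := by positivity
    field_simp
  have h4 := ((h3.mul tendsto_log_ratio).mul h1).div h2 one_ne_zero
  simp only [mul_one, div_one] at h4
  refine h4.congr fun n => ?_
  have a1 : (n : ℝ) + 1 ≠ 0 := by positivity
  have a2 := (log_pr_pos n).ne'
  have a3 := (log_pr_pos (n + 1)).ne'
  have a4 := (pr_pos n).ne'
  have a5 := (pr_pos (n + 1)).ne'
  have a6 : (n : ℝ) + 1 + 1 ≠ 0 := by positivity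
  simp only [Pi.div_apply, Function.comp_apply]
  push_cast
  field_simp

/-- relative gap -/
noncomputable def u (n : ℕ) : ℝ := (pr (n + 1) - pr n) / pr n

lemma u_pos (n : ℕ) : 0 < u n := div_pos (by linarith [pr_lt_succ n]) (pr_pos n)

lemma tendsto_u : Tendsto u atTop (𝓝 0) := by
  have := tendsto_ratio.sub_const 1
  rw [sub_self] at this
  refine this.congr fun n => ?_
  have a4 := (pr_pos n).ne'
  unfold u
  field_simp

lemma tendsto_log_one_add_div {f : ℕ → ℝ} (hf : ∀ n, 0 < f n) (h : Tendsto f atTop (𝓝 0)) :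
    Tendsto (fun n => Real.log (1 + f n) / f n) atTop (𝓝 1) := by
  have h1 : Tendsto (fun n => 1 / (1 + f n)) atTop (𝓝 1) := by
    have : Tendsto (fun n => 1 + f n) atTop (𝓝 1) := by simpa using h.const_add 1
    have h2 := (tendsto_const_nhds (x := (1 : ℝ))).div this one_ne_zero
    rw [div_one] at h2
    exact h2
  refine tendsto_of_tendsto_of_tendsto_of_le_of_le h1 tendsto_const_nhds ?_ ?_
  · intro n
    have hn := hf n
    simp only
    rw [div_le_div_iff₀ (by linarith) hn]
    have := Real.one_sub_inv_le_log_of_pos (show 0 < 1 + f n by linarith)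
    have h2 : (1 + f n) * (1 - (1 + f n)⁻¹) ≤ (1 + f n) * Real.log (1 + f n) :=
      mul_le_mul_of_nonneg_left this (by linarith)
    have h3 : (1 + f n) * (1 - (1 + f n)⁻¹) = f n := by
      have : (1 + f n) ≠ 0 := by linarith
      field_simp
      ring
    rw [h3] at h2
    linarith
  · intro n
    have hn := hf n
    simp only
    rw [div_le_one hn]
    have := Real.log_le_sub_one_of_pos (show 0 < 1 + f n by linarith)
    linarith

/-- `R n = log (log p_{n+1} / log p_n) / log (1 + 1/n)`; in our indexing `n` is `n + 1`. -/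
noncomputable def R (n : ℕ) : ℝ :=
  Real.log (Real.log (pr (n + 1)) / Real.log (pr n)) / Real.log (((n : ℝ) + 2) / ((n : ℝ) + 1))

/-- Cramer's ratio -/
noncomputable def r (n : ℕ) : ℝ := (pr (n + 1) - pr n) / Real.log (pr n) ^ 2

lemma r_pos (n : ℕ) : 0 < r n :=
  div_pos (by linarith [pr_lt_succ n]) (pow_pos (log_pr_pos n) 2)

lemma tendsto_R_div_r : Tendsto (fun n => R n / r n) atTop (𝓝 1) := by
  have hu1 : Tendsto (fun n => Real.log (1 + u n) / u n) atTop (𝓝 1) :=
    tendsto_log_one_add_div u_pos tendsto_u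
  have hlogpos : ∀ n, 0 < Real.log (1 + u n) := fun n => Real.log_pos (by linarith [u_pos n])
  set t : ℕ → ℝ := fun n => Real.log (1 + u n) / Real.log (pr n) with ht
  have htpos : ∀ n, 0 < t n := fun n => div_pos (hlogpos n) (log_pr_pos n)
  have ht0 : Tendsto t atTop (𝓝 0) := by
    have h1 : Tendsto (fun n => Real.log (1 + u n)) atTop (𝓝 0) := by
      have : Tendsto (fun n => 1 + u n) atTop (𝓝 1) := by simpa using tendsto_u.const_add 1
      have h2 := (Real.continuousAt_log one_ne_zero).tendsto.comp this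
      rw [Real.log_one] at h2
      exact h2
    exact h1.div_atTop tendsto_log_pr
  have ht1 : Tendsto (fun n => Real.log (1 + t n) / t n) atTop (𝓝 1) :=
    tendsto_log_one_add_div htpos ht0
  have hn1 : Tendsto (fun n : ℕ => Real.log (1 + 1 / ((n : ℝ) + 1)) / (1 / ((n : ℝ) + 1)))
      atTop (𝓝 1) :=
    tendsto_log_one_add_div (fun n => by positivity) tendsto_one_div_add_atTop_nhds_zero_nat
  have h4 := ((ht1.mul hu1).mul tendsto_PNT).div hn1 one_ne_zero
  simp only [mul_one, div_one] at h4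
  refine h4.congr fun n => ?_
  have a1 : (n : ℝ) + 1 ≠ 0 := by positivity
  have a2 := (log_pr_pos n).ne'
  have a4 := (pr_pos n).ne'
  have a5 := (u_pos n).ne'
  have a6 := (hlogpos n).ne'
  have a7 := (htpos n).ne'
  have e1 : 1 + t n = Real.log (pr (n + 1)) / Real.log (pr n) := by
    have : pr (n + 1) = pr n * (1 + u n) := by
      unfold u
      field_simp
      ring
    rw [this, Real.log_mul a4 (by linarith [u_pos n]), ht]
    field_simp
  have e2 : 1 + 1 / ((n : ℝ) + 1) = ((n : ℝ) + 2) / ((n : ℝ) + 1) := by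
    field_simp
    ring
  have a8 : Real.log (((n : ℝ) + 2) / ((n : ℝ) + 1)) ≠ 0 := by
    apply (Real.log_pos _).ne'
    rw [lt_div_iff₀ (by positivity)]
    linarith
  simp only [Pi.div_apply]
  rw [e2, e1]
  unfold R
  have e3 : t n = Real.log (1 + u n) / Real.log (pr n) := rfl
  have e4 : r n = u n * pr n / Real.log (pr n) ^ 2 := by
    unfold r u
    field_simp
  have hup := u_pos n
  rw [e3, e4]
  field_simp

lemma log_frac_pos (n : ℕ) : 0 < Real.log (((n : ℝ) + 2) / ((n : ℝ) + 1)) := by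
  apply Real.log_pos
  rw [lt_div_iff₀ (by positivity)]
  linarith

/-- the generalised Firoozbakht inequality with exponent `c` at index `n` is `R n < c`. -/
lemma firoozbakht_iff (n : ℕ) (c : ℝ) :
    pr (n + 1) ^ (1 / ((n : ℝ) + 2) ^ c) < pr n ^ (1 / ((n : ℝ) + 1) ^ c) ↔ R n < c := by
  have p1 : 0 < ((n : ℝ) + 1) ^ c := Real.rpow_pos_of_pos (by positivity) c
  have p2 : 0 < ((n : ℝ) + 2) ^ c := Real.rpow_pos_of_pos (by positivity) c
  have l1 := log_pr_pos n
  have l2 := log_pr_pos (n + 1)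
  rw [Real.rpow_def_of_pos (pr_pos _), Real.rpow_def_of_pos (pr_pos _), Real.exp_lt_exp]
  have e1 : Real.log (pr (n + 1)) * (1 / ((n : ℝ) + 2) ^ c) < Real.log (pr n) * (1 / ((n : ℝ) + 1) ^ c)
      ↔ Real.log (pr (n + 1)) / Real.log (pr n) < (((n : ℝ) + 2) / ((n : ℝ) + 1)) ^ c := by
    rw [Real.div_rpow (by positivity) (by positivity), mul_one_div, mul_one_div,
      div_lt_div_iff₀ p2 p1, div_lt_div_iff₀ l1 p1]
    constructor <;> intro h <;> linarith
  rw [e1, R, div_lt_iff₀ (log_frac_pos n)]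
  have q1 : 0 < Real.log (pr (n + 1)) / Real.log (pr n) := div_pos l2 l1
  have q2 : 0 < (((n : ℝ) + 2) / ((n : ℝ) + 1)) ^ c := Real.rpow_pos_of_pos (by positivity) c
  rw [← Real.log_lt_log_iff q1 q2, Real.log_rpow (by positivity)]

lemma R_pos (n : ℕ) : 0 < R n := by
  refine div_pos (Real.log_pos ?_) (log_frac_pos n)
  rw [lt_div_iff₀ (log_pr_pos n), one_mul]
  exact Real.log_lt_log (pr_pos n) (pr_lt_succ n)

lemma eventually_r_le (ε : ℝ) (hε : 0 < ε) : ∀ᶠ n in atTop, r n ≤ (1 + ε) * R n := by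
  have h : ∀ᶠ n in atTop, 1 / (1 + ε) < R n / r n :=
    tendsto_R_div_r.eventually_const_lt (by rw [div_lt_one (by linarith)]; linarith)
  filter_upwards [h] with n hn
  rw [div_lt_div_iff₀ (by linarith) (r_pos n)] at hn
  linarith

lemma eventually_R_le (ε : ℝ) (hε : 0 < ε) : ∀ᶠ n in atTop, R n ≤ (1 + ε) * r n := by
  have h : ∀ᶠ n in atTop, R n / r n < 1 + ε :=
    tendsto_R_div_r.eventually_lt_const (by linarith)
  filter_upwards [h] with n hn
  rw [div_lt_iff₀ (r_pos n)] at hn
  linarith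

theorem limsup_eq_sInf :
    limsup (fun n : ℕ => ((r n : ℝ) : EReal)) atTop =
      sInf {c : EReal | ∃ x : ℝ, c = x ∧ ∀ᶠ n : ℕ in atTop,
        pr (n + 1) ^ (1 / ((n : ℝ) + 2) ^ x) < pr n ^ (1 / ((n : ℝ) + 1) ^ x)} := by
  simp only [firoozbakht_iff]
  apply le_antisymm
  · apply le_sInf
    rintro c ⟨x, rfl, hx⟩
    have hx0 : 0 < x := by
      obtain ⟨n, hn⟩ := hx.exists
      exact (R_pos n).trans hn
    apply EReal.le_of_forall_lt_iff_le.1
    intro z hz
    have hz' : x < z := by exact_mod_cast hz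
    -- choose eps with (1+eps) x <= z
    have hε : 0 < z / x - 1 := by
      rw [sub_pos, lt_div_iff₀ hx0]; linarith
    refine limsup_le_of_le (h := ?_)
    filter_upwards [eventually_r_le _ hε, hx] with n h1 h2
    have h3 : r n ≤ z := by
      calc r n ≤ (1 + (z / x - 1)) * R n := h1
        _ = z / x * R n := by ring
        _ ≤ z / x * x := by
            apply mul_le_mul_of_nonneg_left h2.le
            have : 0 < z := hx0.trans hz'
            positivity
        _ = z := by field_simp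
    exact_mod_cast h3
  · apply EReal.le_of_forall_lt_iff_le.1
    intro z hz
    obtain ⟨y, hy1, hy2⟩ := EReal.lt_iff_exists_real_btwn.1 hz
    have hyz : y < z := by exact_mod_cast hy2
    apply sInf_le
    refine ⟨z, rfl, ?_⟩
    have h1 : ∀ᶠ n in atTop, ((r n : ℝ) : EReal) < y := eventually_lt_of_limsup_lt hy1
    have hy0 : 0 < y := by
      obtain ⟨n, hn⟩ := h1.exists
      have : r n < y := by exact_mod_cast hn
      exact (r_pos n).trans this
    have hε : 0 < z / y - 1 := by
      rw [sub_pos, lt_div_iff₀ hy0]; linarith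
    filter_upwards [eventually_R_le _ hε, h1] with n h2 h3
    have h3' : r n < y := by exact_mod_cast h3
    calc R n ≤ (1 + (z / y - 1)) * r n := h2
      _ = z / y * r n := by ring
      _ < z / y * y := by
          apply mul_lt_mul_of_pos_left h3'
          have : 0 < z := hy0.trans hyz
          positivity
      _ = z := by field_simp

theorem cramer_iff :
    (∃ C : ℝ, ∃ N : ℕ, ∀ n : ℕ, N ≤ n → pr (n + 1) - pr n ≤ C * Real.log (pr n) ^ 2) ↔
      ∃ c : ℝ, ∀ᶠ n : ℕ in atTop,
        pr (n + 1) ^ (1 / ((n : ℝ) + 2) ^ c) < pr n ^ (1 / ((n : ℝ) + 1) ^ c) := by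
  simp only [firoozbakht_iff]
  constructor
  · rintro ⟨C, N, hC⟩
    refine ⟨2 * C + 1, ?_⟩
    filter_upwards [eventually_R_le 1 one_pos, eventually_ge_atTop N] with n h1 h2
    have h3 : r n ≤ C := by
      unfold r
      rw [div_le_iff₀ (pow_pos (log_pr_pos n) 2)]
      exact hC n h2
    linarith
  · rintro ⟨c, hc⟩
    obtain ⟨N, hN⟩ := eventually_atTop.1 (hc.and (eventually_r_le 1 one_pos))
    refine ⟨2 * c, N, fun n hn => ?_⟩
    obtain ⟨h1, h2⟩ := hN n hn
    have h3 : r n ≤ 2 * c := by linarith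
    unfold r at h3
    rwa [div_le_iff₀ (pow_pos (log_pr_pos n) 2)] at h3

end Pool.Agent.H3
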