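import Pool.Agent.H3.BC

set_option autoImplicit false

open MeasureTheory ProbabilityTheory Filter
open scoped ENNReal Topology

namespace Pool.Agent.H3

variable {Ω : Type*} [MeasurableSpace Ω] {μ : Measure Ω}

/-- the event that the gap of the random set starting at `n` is longer than `h n`. -/
def gapEvent (A : ℕ → Set Ω) (h : ℕ → ℕ) (n : ℕ) : Set Ω :=
  {ω | ω ∈ A n ∧ ∀ j, 1 ≤ j → j ≤ h n → ω ∉ A (n + j)}

open Classical in
/-- the sets whose intersection is the gap event. -/
noncomputable def gapPiece (A : ℕ → Set Ω) (n i : ℕ) : Set Ω := if i = n then A n else (A i)ᶜ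

omit [MeasurableSpace Ω] in
lemma gapEvent_eq (A : ℕ → Set Ω) (h : ℕ → ℕ) (n : ℕ) :
    gapEvent A h n = ⋂ i ∈ Finset.Icc n (n + h n), gapPiece A n i := by
  ext ω
  simp only [gapEvent, gapPiece, Set.mem_ofPred_eq, Set.mem_iInter, Finset.mem_Icc]
  constructor
  · rintro ⟨h1, h2⟩ i ⟨hi1, hi2⟩
    by_cases hi : i = n
    · subst hi; simpa using h1
    · rw [if_neg hi]
      have := h2 (i - n) (by omega) (by omega)
      rwa [Nat.add_sub_cancel' hi1] at this
  · intro H
    refine ⟨?_, ?_⟩
    · have := H n ⟨le_rfl, by omega⟩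
      simpa using this
    · intro j hj1 hj2
      have := H (n + j) ⟨by omega, by omega⟩
      rw [if_neg (by omega)] at this
      exact this

lemma measurable_gapPiece (A : ℕ → Set Ω) (n i : ℕ) :
    MeasurableSet[MeasurableSpace.generateFrom {A i}] (gapPiece A n i) := by
  unfold gapPiece
  split_ifs with h
  · subst h; exact MeasurableSpace.measurableSet_generateFrom rfl
  · exact @MeasurableSet.compl _ _ (MeasurableSpace.generateFrom {A i})
      (MeasurableSpace.measurableSet_generateFrom rfl)

lemma measurableSet_gapEvent {A : ℕ → Set Ω} (hA : ∀ n, MeasurableSet (A n)) (h : ℕ → ℕ) (n : ℕ) :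
    MeasurableSet (gapEvent A h n) := by
  rw [gapEvent_eq]
  refine Finset.measurableSet_biInter _ fun i _ => ?_
  unfold gapPiece
  split_ifs
  · exact hA n
  · exact (hA i).compl

lemma real_gapPiece [IsProbabilityMeasure μ] {A : ℕ → Set Ω} (hA : ∀ n, MeasurableSet (A n))
    (n i : ℕ) : μ.real (gapPiece A n i) = if i = n then μ.real (A n) else 1 - μ.real (A i) := by
  unfold gapPiece
  split_ifs with h
  · rfl
  · rw [probReal_compl_eq_one_sub (hA i)]

lemma meas_biInter_gen [IsProbabilityMeasure μ] {A : ℕ → Set Ω} (hind : iIndepSet A μ)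
    (S : Finset ℕ) (f : ℕ → Set Ω)
    (hf : ∀ i ∈ S, MeasurableSet[MeasurableSpace.generateFrom {A i}] (f i)) :
    μ.real (⋂ i ∈ S, f i) = ∏ i ∈ S, μ.real (f i) := by
  have h1 : iIndep (fun i => MeasurableSpace.generateFrom {A i}) μ :=
    (iIndepSet_iff_iIndep A μ).1 hind
  have h2 := iIndep.meas_biInter h1 hf
  simp only [Measure.real, h2, ENNReal.toReal_prod]

lemma real_gapEvent [IsProbabilityMeasure μ] {A : ℕ → Set Ω} (hA : ∀ n, MeasurableSet (A n))
    (hind : iIndepSet A μ) (h : ℕ → ℕ) (n : ℕ) :
    μ.real (gapEvent A h n) =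
      μ.real (A n) * ∏ j ∈ Finset.Icc 1 (h n), (1 - μ.real (A (n + j))) := by
  rw [gapEvent_eq, meas_biInter_gen hind _ _ (fun i _ => measurable_gapPiece A n i)]
  rw [← Finset.mul_prod_erase _ _ (show n ∈ Finset.Icc n (n + h n) by simp)]
  congr 1
  · rw [real_gapPiece hA]; simp
  · refine Finset.prod_bij' (fun i _ => i - n) (fun j _ => n + j) ?_ ?_ ?_ ?_ ?_
    · intro i hi
      simp only [Finset.mem_erase, Finset.mem_Icc] at hi ⊢
      omega
    · intro j hj
      simp only [Finset.mem_erase, Finset.mem_Icc] at hj ⊢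
      omega
    · intro i hi
      simp only [Finset.mem_erase, Finset.mem_Icc] at hi
      omega
    · intro j hj
      simp
    · intro i hi
      simp only [Finset.mem_erase, Finset.mem_Icc] at hi
      rw [real_gapPiece hA, if_neg hi.1, Nat.add_sub_cancel' hi.2.1]

lemma real_gapEvent_inter_le [IsProbabilityMeasure μ] {A : ℕ → Set Ω}
    (hind : iIndepSet A μ) (h : ℕ → ℕ) (n m : ℕ) (hnm : n < m) :
    μ.real (gapEvent A h n ∩ gapEvent A h m) ≤
      μ.real (gapEvent A h n) * μ.real (gapEvent A h m) := by
  classical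
  by_cases hc : m ≤ n + h n
  · have : gapEvent A h n ∩ gapEvent A h m = ∅ := by
      ext ω
      simp only [gapEvent, Set.mem_inter_iff, Set.mem_ofPred_eq, Set.mem_empty_iff_false,
        iff_false, not_and]
      rintro ⟨_, h2⟩ h3
      have := h2 (m - n) (by omega) (by omega)
      rw [Nat.add_sub_cancel' hnm.le] at this
      exact absurd h3 this
    rw [this]
    simp only [measureReal_empty]
    positivity
  · push Not at hc
    have hdis : Disjoint (Finset.Icc n (n + h n)) (Finset.Icc m (m + h m)) := by
      rw [Finset.disjoint_left]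
      intro i hi hi'
      simp only [Finset.mem_Icc] at hi hi'
      omega
    set f : ℕ → Set Ω := fun i => if i ≤ n + h n then gapPiece A n i else gapPiece A m i with hf
    have hfm : ∀ i, MeasurableSet[MeasurableSpace.generateFrom {A i}] (f i) := by
      intro i
      simp only [hf]
      split_ifs
      · exact measurable_gapPiece A n i
      · exact measurable_gapPiece A m i
    have h1 : gapEvent A h n ∩ gapEvent A h m =
        ⋂ i ∈ Finset.Icc n (n + h n) ∪ Finset.Icc m (m + h m), f i := by
      rw [gapEvent_eq, gapEvent_eq]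
      ext ω
      simp only [Set.mem_inter_iff, Set.mem_iInter, Finset.mem_union, hf]
      constructor
      · rintro ⟨a, b⟩ i (hi | hi)
        · have := a i hi
          simp only [Finset.mem_Icc] at hi
          rwa [if_pos hi.2]
        · have := b i hi
          simp only [Finset.mem_Icc] at hi
          rwa [if_neg (by omega)]
      · intro H
        refine ⟨fun i hi => ?_, fun i hi => ?_⟩
        · have := H i (Or.inl hi)
          simp only [Finset.mem_Icc] at hi
          rwa [if_pos hi.2] at this
        · have := H i (Or.inr hi)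
          simp only [Finset.mem_Icc] at hi
          rwa [if_neg (by omega)] at this
    rw [h1, meas_biInter_gen hind _ _ (fun i _ => hfm i), Finset.prod_union hdis]
    rw [gapEvent_eq, gapEvent_eq, meas_biInter_gen hind _ _ (fun i _ => measurable_gapPiece A n i),
      meas_biInter_gen hind _ _ (fun i _ => measurable_gapPiece A m i)]
    apply le_of_eq
    congr 1
    · refine Finset.prod_congr rfl fun i hi => ?_
      simp only [Finset.mem_Icc] at hi
      simp only [hf, if_pos hi.2]
    · refine Finset.prod_congr rfl fun i hi => ?_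
      simp only [Finset.mem_Icc] at hi
      simp only [hf]
      rw [if_neg (by omega)]

/-- zero-one law for long gaps of an independent random set of integers. -/
theorem zero_one_law [IsProbabilityMeasure μ] {A : ℕ → Set Ω} (hA : ∀ n, MeasurableSet (A n))
    (hind : iIndepSet A μ) (h : ℕ → ℕ) :
    (Summable (fun n => μ.real (A n) * ∏ j ∈ Finset.Icc 1 (h n), (1 - μ.real (A (n + j)))) →
      ∀ᵐ ω ∂μ, {n | ω ∈ gapEvent A h n}.Finite) ∧
    (¬ Summable (fun n => μ.real (A n) * ∏ j ∈ Finset.Icc 1 (h n), (1 - μ.real (A (n + j)))) →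
      ∀ᵐ ω ∂μ, {n | ω ∈ gapEvent A h n}.Infinite) := by
  have hfun : (fun n => μ.real (A n) * ∏ j ∈ Finset.Icc 1 (h n), (1 - μ.real (A (n + j)))) =
      fun n => μ.real (gapEvent A h n) := by
    funext n
    rw [real_gapEvent hA hind]
  rw [hfun]
  constructor
  · intro hsum
    apply ae_finite_setOfPred_mem
    have : (fun n => μ (gapEvent A h n)) = fun n => ENNReal.ofReal (μ.real (gapEvent A h n)) := by
      funext n
      rw [ofReal_measureReal]
    rw [this]
    exact hsum.tsum_ofReal_ne_top
  · intro hns
    exact bc2_of_pairwise_le (fun n => measurableSet_gapEvent hA h n)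
      (fun n m hnm => real_gapEvent_inter_le hind h n m hnm) hns

end Pool.Agent.H3
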